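import Mathlib

namespace Pool.Agent.Results.MP_f2857b_co.Q1

open SimpleGraph

/-- A colouring of `K_n` is given by its red graph `R`; blue is the complement. -/
noncomputable def ramsey {A B : Type} (G : SimpleGraph A) (H : SimpleGraph B) : ℕ :=
  sInf {N | ∀ R : SimpleGraph (Fin N), G ⊑ R ∨ H ⊑ Rᶜ}

noncomputable def rdeg {n : ℕ} (R : SimpleGraph (Fin n)) (v : Fin n) : ℕ :=
  (R.neighborSet v).ncard

noncomputable def spread {n : ℕ} (R : SimpleGraph (Fin n)) (X : Set (Fin n)) : ℕ :=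
  sSup (rdeg R '' X) - sInf (rdeg R '' X)

def Admissible {A B : Type} (G : SimpleGraph A) (H : SimpleGraph B) {n : ℕ}
    (R : SimpleGraph (Fin n)) (X : Set (Fin n)) : Prop :=
  (∃ f : Copy G R, X = Set.range f) ∨ (∃ f : Copy H Rᶜ, X = Set.range f)

noncomputable def Phi {A B : Type} (G : SimpleGraph A) (H : SimpleGraph B) (n : ℕ) : ℕ :=
  ⨆ R : SimpleGraph (Fin n), sInf (spread R '' {X | Admissible G H R X})

def M (b0 b1 b2 b3 b4 b5 b6 b7 b8 b9 : Bool) (u v : Fin 5) : Bool :=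
  (![![false, b0, b1, b2, b3], ![b0, false, b4, b5, b6], ![b1, b4, false, b7, b8],
    ![b2, b5, b7, false, b9], ![b3, b6, b8, b9, false]] : Fin 5 → Fin 5 → Bool) u v

def dg (m : Fin 5 → Fin 5 → Bool) (u : Fin 5) : ℕ :=
  (Finset.univ.filter (fun v => m u v = true)).card

def good (m : Fin 5 → Fin 5 → Bool) : Prop :=
  ∃ x y z : Fin 5, (x ≠ y ∧ y ≠ z ∧ x ≠ z) ∧
    ((m x y = true ∧ m y z = true ∧ m x z = true) ∨ (m x y = false ∧ m y z = false)) ∧
    ∃ k : Fin 3, (k ≤ dg m x ∧ dg m x ≤ k + 2) ∧ (k ≤ dg m y ∧ dg m y ≤ k + 2) ∧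
      (k ≤ dg m z ∧ dg m z ≤ k + 2)

instance (m : Fin 5 → Fin 5 → Bool) : Decidable (good m) := by unfold good; infer_instance

theorem all_good : ∀ b0 b1 b2 b3 b4 b5 b6 b7 b8 b9 : Bool,
    good (M b0 b1 b2 b3 b4 b5 b6 b7 b8 b9) := by decide +kernel

theorem main (R : SimpleGraph (Fin 5)) :
    ∃ X, Admissible (⊤ : SimpleGraph (Fin 3)) (pathGraph 3) R X ∧ spread R X ≤ 2 := by
  classical
  have h := all_good (decide (R.Adj 0 1)) (decide (R.Adj 0 2)) (decide (R.Adj 0 3))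
    (decide (R.Adj 0 4)) (decide (R.Adj 1 2)) (decide (R.Adj 1 3)) (decide (R.Adj 1 4))
    (decide (R.Adj 2 3)) (decide (R.Adj 2 4)) (decide (R.Adj 3 4))
  generalize hm : M _ _ _ _ _ _ _ _ _ _ = m at h
  have e : ∀ u v, m u v = true ↔ R.Adj u v := by
    intro u v
    rw [← hm]
    fin_cases u <;> fin_cases v <;> simp [M] <;> exact R.adj_comm _ _
  have ed : ∀ u, dg m u = rdeg R u := by
    intro u
    unfold dg rdeg
    rw [← Set.ncard_coe_finset]
    congr 1; ext v; simp [e]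
  obtain ⟨x, y, z, ⟨n1, n2, n3⟩, hc, k, hx, hy, hz⟩ := h
  have hinj : Function.Injective ![x, y, z] := by
    intro i j h
    have := n1.symm; have := n2.symm; have := n3.symm
    fin_cases i <;> fin_cases j <;> first | rfl | exact absurd h (by assumption)
  refine ⟨Set.range ![x, y, z], ?_, ?_⟩
  · rcases hc with ⟨h1, h2, h3⟩ | ⟨h1, h2⟩
    · rw [e] at h1 h2 h3
      refine Or.inl ⟨⟨⟨![x, y, z], ?_⟩, hinj⟩, rfl⟩
      intro i j h
      have := h1.symm; have := h2.symm; have := h3.symm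
      fin_cases i <;> fin_cases j <;> first | exact absurd rfl h.ne | simpa
    · have a1 : Rᶜ.Adj x y := ⟨n1, fun h => by rw [← e, h1] at h; simp at h⟩
      have a2 : Rᶜ.Adj y z := ⟨n2, fun h => by rw [← e, h2] at h; simp at h⟩
      refine Or.inr ⟨⟨⟨![x, y, z], ?_⟩, hinj⟩, rfl⟩
      intro i j h
      rw [pathGraph_adj] at h
      have := a1.symm; have := a2.symm
      fin_cases i <;> fin_cases j <;> first | (simp at h; done) | assumption
  · unfold spread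
    have hne : (rdeg R '' Set.range ![x, y, z]).Nonempty := ⟨_, _, ⟨0, rfl⟩, rfl⟩
    have hb : ∀ d ∈ rdeg R '' Set.range ![x, y, z], (k : ℕ) ≤ d ∧ d ≤ k + 2 := by
      rintro _ ⟨_, ⟨i, rfl⟩, rfl⟩
      rw [← ed]
      fin_cases i <;> assumption
    have h1 := csSup_le hne (fun d hd => (hb d hd).2)
    have h2 := (hb _ (Nat.sInf_mem hne)).1
    omega

theorem mem5 : 5 ∈ {N | ∀ R : SimpleGraph (Fin N), (⊤ : SimpleGraph (Fin 3)) ⊑ R ∨
    pathGraph 3 ⊑ Rᶜ} := by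
  intro R
  obtain ⟨X, ⟨f, _⟩ | ⟨f, _⟩, _⟩ := main R
  · exact Or.inl ⟨f⟩
  · exact Or.inr ⟨f⟩

theorem r5 : ramsey (⊤ : SimpleGraph (Fin 3)) (pathGraph 3) = 5 := by
  refine le_antisymm (Nat.sInf_le mem5) ?_
  refine le_csInf ⟨5, mem5⟩ fun N hm => ?_
  by_contra hlt
  let R : SimpleGraph (Fin N) :=
    { Adj := fun u v => u.val % 2 ≠ v.val % 2
      symm := ⟨fun _ _ h => h.symm⟩
      loopless := ⟨fun _ h => h rfl⟩ }
  rcases hm R with ⟨⟨f⟩⟩ | ⟨⟨f⟩⟩
  · have h1 : (f 0).val % 2 ≠ (f 1).val % 2 := f.toHom.map_adj (by decide : (⊤ : SimpleGraph (Fin 3)).Adj 0 1)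
    have h2 : (f 0).val % 2 ≠ (f 2).val % 2 := f.toHom.map_adj (by decide : (⊤ : SimpleGraph (Fin 3)).Adj 0 2)
    have h3 : (f 1).val % 2 ≠ (f 2).val % 2 := f.toHom.map_adj (by decide : (⊤ : SimpleGraph (Fin 3)).Adj 1 2)
    omega
  · have h1 := f.toHom.map_adj (pathGraph_adj.2 (Or.inl rfl) : (pathGraph 3).Adj 0 1)
    have h2 := f.toHom.map_adj (pathGraph_adj.2 (Or.inl rfl) : (pathGraph 3).Adj 1 2)
    have n1 : (f 0).val ≠ (f 1).val := fun e => h1.1 (Fin.ext e)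
    have n2 : (f 1).val ≠ (f 2).val := fun e => h2.1 (Fin.ext e)
    have n3 : (f 0).val ≠ (f 2).val := fun e =>
      absurd (f.injective (Fin.ext e)) (by decide)
    have p1 : ¬ ((f 0).val % 2 ≠ (f 1).val % 2) := h1.2
    have p2 : ¬ ((f 1).val % 2 ≠ (f 2).val % 2) := h2.2
    have := (f 0).2; have := (f 1).2; have := (f 2).2
    omega

theorem result : ∃ (A B : Type) (_ : Finite A) (_ : Finite B) (G : SimpleGraph A)
    (H : SimpleGraph B), (Nonempty A ∧ ∀ a, ∃ a', G.Adj a a') ∧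
    (Nonempty B ∧ ∀ b, ∃ b', H.Adj b b') ∧
    ∃ n, ramsey G H ≤ n ∧ Phi G H n < ramsey G H - 2 := by
  refine ⟨Fin 3, Fin 3, inferInstance, inferInstance, ⊤, pathGraph 3, ⟨⟨0⟩, by decide⟩,
    ⟨⟨0⟩, ?_⟩, 5, r5.le, ?_⟩
  · intro b
    simp only [pathGraph_adj]
    revert b; decide
  · rw [r5]
    refine lt_of_le_of_lt (ciSup_le fun R => ?_) (by norm_num : 2 < 5 - 2)
    obtain ⟨X, hX, h⟩ := main R
    exact le_trans (Nat.sInf_le (m := spread R X) ⟨X, hX, rfl⟩) h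

end Pool.Agent.Results.MP_f2857b_co.Q1
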